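import Pool.Agent.Lib.MP_4c0f47_an.Main
import Pool.Agent.Lib.MP_4c0f47_an.GapLevel

/-! Every regular self-similarly shrinking network has at most `B` bounded regions, for an absolute
constant `B`. The definitions are in `Pool/Agent/Lib/MP_4c0f47_an/Defs.lean`. -/

set_option autoImplicit false

namespace Pool.Agent.Results.MP_4c0f47_an.BoundedRegions

theorem result : ∃ B : ℕ, ∀ N : Pool.Agent.MP_4c0f47_an.Network,
    N.IsNetwork → N.IsRegular → N.IsShrinker → N.boundedRegions.encard ≤ B :=
  ⟨400003, fun N hN hR hS => Pool.Agent.MP_4c0f47_an.main_bound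
    (fun _ _ _ _ _ _ _ _ _ _ h _ hρ => h.gap_level hρ) N hN hR hS⟩

end Pool.Agent.Results.MP_4c0f47_an.BoundedRegions
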